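import Pool.Agent.FU3.Stmts

set_option autoImplicit false

/-!
# Squad FU3, row STP: one round of the switching lemma for disjunctions and conjunctions
-/

namespace Pool.Agent.FU3.H92

open Finset Pool.Agent.FUR Pool.Agent.FU2

theorem apl_apl {N : ℕ} {r₀ r : RS N} (h : Ext r₀ r) (x : Fin N → Bool) :
    apl r₀ (apl r x) = apl r x := by
  funext v
  unfold apl
  rcases h0 : r₀ v with _ | c
  · rfl
  · have h1 := h v (by rw [h0]; exact Option.some_ne_none c)
    rw [h1, h0]
    rfl

theorem cat (hD : DTRStmt) {N T : ℕ} : ∀ l : List (BF N), (∀ g ∈ l, Dt T g) →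
    ∃ F : List (RS N), (∀ a ∈ F, (supp a).card ≤ T) ∧ ∀ x, dn F x = l.any fun g => g x := by
  intro l
  induction l with
  | nil => exact fun _ => ⟨[], fun a ha => absurd ha List.not_mem_nil, fun x => rfl⟩
  | cons g l ih =>
    intro h
    obtain ⟨F, hF, hx⟩ := ih fun g' hg' => h g' (List.mem_cons_of_mem _ hg')
    obtain ⟨A, hA, hAx⟩ := hD.2.2.2 N T g (h g List.mem_cons_self)
    refine ⟨A ++ F, ?_, fun x => ?_⟩
    · intro a ha
      rcases List.mem_append.1 ha with h1 | h1
      · exact hA a h1
      · exact hF a h1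
    · have h1 : dn (A ++ F) x = (dn A x || dn F x) := List.any_append
      rw [h1, hAx, hx, List.any_cons]

theorem stp (hX : SWXStmt) (hD : DTRStmt) : STPStmt := by
  intro N T ℓ m r₀ b l G hT hℓ hst hm hl hG
  have hF : ∀ i, ∃ F : List (RS N), (∀ a ∈ F, (supp a).card ≤ T) ∧
      ∀ x, dn F x = if b i then res r₀ (G i) x else !(res r₀ (G i) x) := by
    intro i
    by_cases hb : b i = true
    · obtain ⟨F, h1, h2⟩ := cat hD ((l i).map (res r₀)) (by
        intro g hg
        obtain ⟨g', hg', rfl⟩ := List.mem_map.1 hg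
        exact hl i g' hg')
      refine ⟨F, h1, fun x => ?_⟩
      have h3 : res r₀ (G i) x = (l i).any fun g => g (apl r₀ x) := by
        unfold res
        rw [hG i, if_pos hb]
      rw [h2, if_pos hb, h3, List.any_map]
      rfl
    · obtain ⟨F, h1, h2⟩ := cat hD ((l i).map fun g => fun x => !(res r₀ g x)) (by
        intro g hg
        obtain ⟨g', hg', rfl⟩ := List.mem_map.1 hg
        exact hD.1 N T _ (hl i g' hg'))
      refine ⟨F, h1, fun x => ?_⟩
      have h3 : res r₀ (G i) x = (l i).all fun g => g (apl r₀ x) := by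
        unfold res
        rw [hG i, if_neg hb]
      rw [h2, if_neg hb, h3, List.any_map, List.not_all_eq_any_not]
      rfl
  choose F hFw hFx using hF
  obtain ⟨r, hr, hrs, hrD⟩ := hX N T ℓ m r₀ F hT hℓ hst hm hFw
  refine ⟨r, hr, hrs, fun i => ?_⟩
  by_cases hb : b i = true
  · have h1 : res r (dn (F i)) = res r (G i) := by
      funext x
      show dn (F i) (apl r x) = G i (apl r x)
      rw [hFx, if_pos hb]
      show G i (apl r₀ (apl r x)) = _
      rw [apl_apl hr]
    rw [← h1]
    exact hrD i
  · have h1 : (fun x => !(res r (dn (F i)) x)) = res r (G i) := by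
      funext x
      show (!(dn (F i) (apl r x))) = G i (apl r x)
      rw [hFx, if_neg hb, Bool.not_not]
      show G i (apl r₀ (apl r x)) = _
      rw [apl_apl hr]
    rw [← h1]
    exact hD.1 N T _ (hrD i)

end Pool.Agent.FU3.H92
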